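import Mathlib.Data.Int.Bitwise
import Mathlib.Data.Fintype.Prod
import Mathlib.Data.Fin.VecNotation
import Mathlib.Tactic

/-!
# Domino tilings of `ℤ³` from binary fields: definitions and the matching property

A field `φ : ℤ³ → Bool` (time `t`, face `(x, y)` of the square lattice) gives a `Z/2` labelling `gh`, `gu` of the
edges of each time layer with an odd number of ones at each vertex. The vertex `(x, y)` is joined in time direction
from `t` to `t + 1` if three of its four edges are labelled one. Where `φ` jumps in time at a face, the `2 × 2 × 3`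
box over this face is filled by the rule `D`.
-/

set_option autoImplicit false

namespace Pool.Agent.Q115.DT

/-- the six directions of `ℤ³` -/
inductive Dir
  | tp | tm | xp | xm | yp | ym
  deriving DecidableEq

open Dir

/-- opposite direction -/
def opp : Dir → Dir
  | tp => tm
  | tm => tp
  | xp => xm
  | xm => xp
  | yp => ym
  | ym => yp

/-- components -/
def dt : Dir → ℤ
  | tp => 1
  | tm => -1
  | _ => 0

/-- components -/
def dx : Dir → ℤ
  | xp => 1
  | xm => -1
  | _ => 0

/-- components -/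
def dy : Dir → ℤ
  | yp => 1
  | ym => -1
  | _ => 0

/-- binary fields on `ℤ³` -/
abbrev Field := ℤ → ℤ → ℤ → Bool

/-- jump of `φ` at time `t` at the face `(x, y)` -/
def J (φ : Field) (t x y : ℤ) : Bool := φ t x y ^^ φ (t - 1) x y

/-- label of the edge from `(x, y)` to `(x + 1, y)` -/
def gh (φ : Field) (t x y : ℤ) : Bool := !(x.bodd ^^ (t.bodd ^^ (φ t x y ^^ φ t x (y - 1))))

/-- label of the edge from `(x, y)` to `(x, y + 1)` -/
def gu (φ : Field) (t x y : ℤ) : Bool := t.bodd ^^ (φ t x y ^^ φ t (x - 1) y)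

/-- three of the four edges at the vertex are labelled one -/
def s (φ : Field) (t x y : ℤ) : Bool :=
  (gh φ t x y && gh φ t (x - 1) y) || (gu φ t x y && gu φ t x (y - 1))

/-- corners of the face -/
def cx : Fin 4 → ℤ := ![0, 1, 1, 0]

/-- corners of the face -/
def cy : Fin 4 → ℤ := ![0, 0, 1, 1]

/-- direction to the next corner -/
def nxt : Fin 4 → Dir := ![xp, yp, xm, ym]

/-- direction to the previous corner -/
def prv : Fin 4 → Dir := ![yp, xm, ym, xp]

/-- filling of the box `2 × 2 × 3` without the bottom cells `i` with `a i` and the top cells `i` with `c i` -/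
def D (a c : Fin 4 → Bool) (i : Fin 4) (j : Fin 3) : Dir :=
  if j = 0 ∧ a i = true then tm
  else if j = 2 ∧ c i = true then tp
  else if a i = c i then
    if a 0 = c 0 ∧ a 1 = c 1 ∧ a 2 = c 2 ∧ a 3 = c 3 then
      (if i = 0 ∨ i = 2 then nxt i else prv i)
    else if a (i + 1) = c (i + 1) then nxt i
    else if a (i - 1) = c (i - 1) then prv i
    else if a i = true then nxt i
    else if a (i - 1) = true then
      (if j = 2 then prv i else if j = 0 then tp else tm)
    else
      (if j = 0 then prv i else if j = 1 then tp else tm)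
  else
    if a (i - 1) = c (i - 1) ∧ a (i + 1) = c (i + 1) ∧ a (i - 1) = true ∧ a (i + 1) = false then
      (if j = 1 then prv i else nxt i)
    else if a i = true then (if j = 1 then tp else tm)
    else (if j = 0 then tp else tm)

/-- the data of a box determined by the labels `g` of the four edges of the face and further bits `o` -/
def av0 (g o : Fin 4 → Bool) (i : Fin 4) : Bool := if g (i - 1) = g i then g i else o i

/-- see `av0` -/
def cv0 (g o : Fin 4 → Bool) (i : Fin 4) : Bool := if g (i - 1) = g i then g i else !o i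

/-- what has to be checked for the cell `(i, j)` of the box, part 1 -/
def Ok1 (a c : Fin 4 → Bool) (i : Fin 4) (j : Fin 3) : Prop :=
  (j = 0 ∧ a i = true → D a c i j = tm) ∧
  (j = 2 ∧ c i = true → D a c i j = tp) ∧
  (D a c i j = tp → (j = 2 ∧ c i = true) ∨ (j = 0 ∧ D a c i 1 = tm) ∨ (j = 1 ∧ D a c i 2 = tm)) ∧
  (D a c i j = tm → (j = 0 ∧ a i = true) ∨ (j = 1 ∧ D a c i 0 = tp) ∨ (j = 2 ∧ D a c i 1 = tp))

/-- what has to be checked for the cell `(i, j)` of the box, part 2 -/
def Ok2 (a c : Fin 4 → Bool) (i : Fin 4) (j : Fin 3) : Prop :=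
  (D a c i j = xp → (i = 0 ∧ D a c 1 j = xm) ∨ (i = 3 ∧ D a c 2 j = xm)) ∧
  (D a c i j = xm → (i = 1 ∧ D a c 0 j = xp) ∨ (i = 2 ∧ D a c 3 j = xp)) ∧
  (D a c i j = yp → (i = 0 ∧ D a c 3 j = ym) ∨ (i = 1 ∧ D a c 2 j = ym)) ∧
  (D a c i j = ym → (i = 3 ∧ D a c 0 j = yp) ∨ (i = 2 ∧ D a c 1 j = yp))

instance (a c : Fin 4 → Bool) (i : Fin 4) (j : Fin 3) : Decidable (Ok1 a c i j) :=
  inferInstanceAs (Decidable (_ ∧ _ ∧ _ ∧ _))

instance (a c : Fin 4 → Bool) (i : Fin 4) (j : Fin 3) : Decidable (Ok2 a c i j) :=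
  inferInstanceAs (Decidable (_ ∧ _ ∧ _ ∧ _))

set_option maxRecDepth 100000 in
theorem ok0 : ∀ g0 g1 g2 g3 o0 o1 o2 o3 : Bool, ∀ i : Fin 4, ∀ j : Fin 3,
    Ok1 (av0 ![g0, g1, g2, g3] ![o0, o1, o2, o3]) (cv0 ![g0, g1, g2, g3] ![o0, o1, o2, o3]) i j ∧
    Ok2 (av0 ![g0, g1, g2, g3] ![o0, o1, o2, o3]) (cv0 ![g0, g1, g2, g3] ![o0, o1, o2, o3]) i j := by
  decide +kernel

theorem vec4 {α : Type} (g : Fin 4 → α) : ![g 0, g 1, g 2, g 3] = g := by
  funext i
  fin_cases i <;> rfl

theorem ok1 (g a c : Fin 4 → Bool) (h1 : ∀ i, g (i - 1) = g i → a i = g i ∧ c i = g i)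
    (h2 : ∀ i, g (i - 1) ≠ g i → c i = !a i) (i : Fin 4) (j : Fin 3) : Ok1 a c i j ∧ Ok2 a c i j := by
  have ha : a = av0 g a := by
    funext k
    unfold av0
    split_ifs with h
    · exact (h1 k h).1
    · rfl
  have hc : c = cv0 g a := by
    funext k
    unfold cv0
    split_ifs with h
    · exact (h1 k h).2
    · exact h2 k h
  have h := ok0 (g 0) (g 1) (g 2) (g 3) (a 0) (a 1) (a 2) (a 3) i j
  rw [vec4 g, vec4 a] at h
  rw [← ha, ← hc] at h
  exact h

end Pool.Agent.Q115.DT
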