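import Pool.Agent.Q115.DT.Shift

/-!
# Gluing of admissible fields

Time is cut into blocks of length `1000`. The block of a face is kept from `φ` if it is near `A`, from `φ'` if it is
near `B`, and otherwise gets at most one jump, at a time which avoids the jumps at the neighbouring faces.
-/

set_option autoImplicit false

namespace Pool.Agent.Q115.DT

/-- at distance at most `4` from `A` -/
def Near (A : ℤ → ℤ → ℤ → Prop) (t x y : ℤ) : Prop :=
  ∃ a b c, A a b c ∧ |t - a| ≤ 4 ∧ |x - b| ≤ 4 ∧ |y - c| ≤ 4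

/-- block near `A` -/
def Ty (A : ℤ → ℤ → ℤ → Prop) (n x y : ℤ) : Prop := ∃ t, t / 1000 = n ∧ Near A t x y

/-- far apart -/
def Far (A B : ℤ → ℤ → ℤ → Prop) : Prop :=
  ∀ a b c a' b' c', A a b c → B a' b' c' → 3000 ≤ |a - a'| ∨ 3000 ≤ |b - b'| ∨ 3000 ≤ |c - c'|

theorem no_both {A B : ℤ → ℤ → ℤ → Prop} (hF : Far A B) {n x y n' x' y' : ℤ} (hA : Ty A n x y)
    (hB : Ty B n' x' y') (h1 : |n - n'| ≤ 1) (h2 : |x - x'| ≤ 1) (h3 : |y - y'| ≤ 1) : False := by
  obtain ⟨t, ht, a, b, c, hA, e1, e2, e3⟩ := hA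
  obtain ⟨t', ht', a', b', c', hB, f1, f2, f3⟩ := hB
  rw [abs_le] at h1 h2 h3 e1 e2 e3 f1 f2 f3
  rcases hF _ _ _ _ _ _ hA hB with h | h | h
  · rcases le_abs.1 h with h | h <;> omega
  · rcases le_abs.1 h with h | h <;> omega
  · rcases le_abs.1 h with h | h <;> omega

open Classical in
/-- value before the jump in a neutral block -/
noncomputable def st (A B : ℤ → ℤ → ℤ → Prop) (φ φ' : Field) (n x y : ℤ) : Bool :=
  if Ty A (n - 1) x y then φ (1000 * n - 1) x y
  else if Ty B (n - 1) x y then φ' (1000 * n - 1) x y else false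

open Classical in
/-- value after the jump in a neutral block -/
noncomputable def en (A B : ℤ → ℤ → ℤ → Prop) (φ φ' : Field) (n x y : ℤ) : Bool :=
  if Ty A (n + 1) x y then φ (1000 * (n + 1)) x y
  else if Ty B (n + 1) x y then φ' (1000 * (n + 1)) x y else false

open Classical in
/-- the glued field -/
noncomputable def gl (A B : ℤ → ℤ → ℤ → Prop) (φ φ' : Field) (τ : ℤ → ℤ → ℤ → ℤ) : Field := fun t x y =>
  if Ty A (t / 1000) x y then φ t x y
  else if Ty B (t / 1000) x y then φ' t x y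
  else if t < τ (t / 1000) x y then st A B φ φ' (t / 1000) x y
  else en A B φ φ' (t / 1000) x y

/-- kept jumps -/
def K (A B : ℤ → ℤ → ℤ → Prop) (φ φ' : Field) (t x y : ℤ) : Prop :=
  (Ty A (t / 1000) x y ∧ J φ t x y = true) ∨ (Ty B (t / 1000) x y ∧ J φ' t x y = true)

theorem K_far {A B : ℤ → ℤ → ℤ → Prop} (hF : Far A B) {φ φ' : Field} (hG : Good 300 φ) (hG' : Good 300 φ')
    {t t' x y : ℤ} (h : K A B φ φ' t x y) (h' : K A B φ φ' t' x y) (hd : |t' - t| < 300) : t' = t := by
  rw [abs_lt] at hd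
  rcases h with ⟨h1, h2⟩ | ⟨h1, h2⟩ <;> rcases h' with ⟨h1', h2'⟩ | ⟨h1', h2'⟩
  · exact hG.far _ _ _ _ h2 h2' (abs_lt.2 hd)
  · exact (no_both hF h1 h1' (by rw [abs_le]; constructor <;> omega) (by simp) (by simp)).elim
  · exact (no_both hF h1' h1 (by rw [abs_le]; constructor <;> omega) (by simp) (by simp)).elim
  · exact hG'.far _ _ _ _ h2 h2' (abs_lt.2 hd)

theorem K_near {A B : ℤ → ℤ → ℤ → Prop} (hF : Far A B) {φ φ' : Field} (hG : Good 300 φ) (hG' : Good 300 φ')
    {t t' x y x' y' : ℤ} (h : K A B φ φ' t x y) (h' : K A B φ φ' t' x' y') (hd : |t' - t| ≤ 2)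
    (hx : |x' - x| ≤ 1) (hy : |y' - y| ≤ 1) : t' = t ∧ x' = x ∧ y' = y := by
  have hd' := abs_le.1 hd
  have hx' := abs_le.1 hx
  have hy' := abs_le.1 hy
  rcases h with ⟨h1, h2⟩ | ⟨h1, h2⟩ <;> rcases h' with ⟨h1', h2'⟩ | ⟨h1', h2'⟩
  · exact hG.near _ _ _ _ _ _ h2 h2' hd hx hy
  · exact (no_both hF h1 h1' (by rw [abs_le]; constructor <;> omega) (by rw [abs_le]; constructor <;> omega)
      (by rw [abs_le]; constructor <;> omega)).elim
  · exact (no_both hF h1' h1 (by rw [abs_le]; constructor <;> omega) (by rw [abs_le]; constructor <;> omega)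
      (by rw [abs_le]; constructor <;> omega)).elim
  · exact hG'.near _ _ _ _ _ _ h2 h2' hd hx hy

/-- residue of the inserted jumps -/
def col (x y : ℤ) : ℤ := 3 * (x % 3 + 3 * (y % 3))

/-- what the inserted jump time has to satisfy -/
def Tau (A B : ℤ → ℤ → ℤ → Prop) (φ φ' : Field) (n x y τ : ℤ) : Prop :=
  1000 * n + 300 ≤ τ ∧ τ ≤ 1000 * n + 700 ∧ τ % 27 = col x y ∧
    ∀ t' x' y', |t' - τ| ≤ 2 → |x' - x| ≤ 1 → |y' - y| ≤ 1 → ¬ (x' = x ∧ y' = y) → ¬ K A B φ φ' t' x' y'

theorem exists_tau {A B : ℤ → ℤ → ℤ → Prop} (hF : Far A B) {φ φ' : Field} (hG : Good 300 φ)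
    (hG' : Good 300 φ') (n x y : ℤ) : ∃ τ, Tau A B φ φ' n x y τ := by
  by_contra hcon
  push Not at hcon
  set r := col x y with hr
  have hr0 : 0 ≤ r ∧ r < 27 := by
    rw [hr]
    unfold col
    constructor <;> omega
  set t0 : ℤ := 1000 * n + 300 + (r - (1000 * n + 300)) % 27 with ht0
  have ht1 : 1000 * n + 300 ≤ t0 ∧ t0 ≤ 1000 * n + 326 := by
    rw [ht0]
    constructor <;> omega
  have ht2 : t0 % 27 = r := by
    rw [ht0]
    omega
  have key : ∀ j : Fin 10, ∃ t' x' y' : ℤ, |t' - (t0 + 27 * (j : ℕ))| ≤ 2 ∧ |x' - x| ≤ 1 ∧ |y' - y| ≤ 1 ∧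
      K A B φ φ' t' x' y' := by
    intro j
    have h := hcon (t0 + 27 * (j : ℕ))
    have hj := j.isLt
    unfold Tau at h
    by_contra hc
    apply h
    refine ⟨by omega, by omega, by omega, ?_⟩
    intro t' x' y' h1 h2 h3 _ h5
    exact hc ⟨t', x', y', h1, h2, h3, h5⟩
  choose ft fx fy h1 h2 h3 h4 using key
  have hcard : Fintype.card (Fin 3 × Fin 3) < Fintype.card (Fin 10) := by
    simp
  let f : Fin 10 → Fin 3 × Fin 3 := fun j =>
    (⟨(fx j - x + 1).toNat, by
        have := abs_le.1 (h2 j)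
        omega⟩, ⟨(fy j - y + 1).toNat, by
        have := abs_le.1 (h3 j)
        omega⟩)
  obtain ⟨i, j, hij, hf⟩ := Fintype.exists_ne_map_eq_of_card_lt f hcard
  have e1 : (fx i - x + 1).toNat = (fx j - x + 1).toNat := congrArg (fun p => (p.1 : ℕ)) hf
  have e2 : (fy i - y + 1).toNat = (fy j - y + 1).toNat := congrArg (fun p => (p.2 : ℕ)) hf
  have a1 := abs_le.1 (h2 i)
  have a2 := abs_le.1 (h2 j)
  have a3 := abs_le.1 (h3 i)
  have a4 := abs_le.1 (h3 j)
  have a5 := abs_le.1 (h1 i)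
  have a6 := abs_le.1 (h1 j)
  have i1 := i.isLt
  have j1 := j.isLt
  have ex : fx j = fx i := by omega
  have ey : fy j = fy i := by omega
  have hK := h4 j
  rw [ex, ey] at hK
  have hne : (i : ℕ) ≠ (j : ℕ) := fun h => hij (Fin.ext h)
  have ht := K_far hF hG hG' (h4 i) hK (by rw [abs_lt]; constructor <;> omega)
  rcases lt_or_gt_of_ne hne with h | h <;> omega

theorem K_or {A B : ℤ → ℤ → ℤ → Prop} (hF : Far A B) {φ φ' : Field} {τ : ℤ → ℤ → ℤ → ℤ}
    (hτ : ∀ n x y, Tau A B φ φ' n x y (τ n x y)) {t x y : ℤ} (hJ : J (gl A B φ φ' τ) t x y = true) :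
    K A B φ φ' t x y ∨ (¬ Ty A (t / 1000) x y ∧ ¬ Ty B (t / 1000) x y ∧ t = τ (t / 1000) x y) := by
  have h0 := hτ (t / 1000) x y
  have h00 := hτ ((t - 1) / 1000) x y
  unfold Tau at h0 h00
  obtain ⟨b1, b2, -, -⟩ := h0
  obtain ⟨b3, b4, -, -⟩ := h00
  by_cases hb : (t - 1) / 1000 = t / 1000
  · -- same block
    by_cases hA : Ty A (t / 1000) x y
    · left
      left
      refine ⟨hA, ?_⟩
      unfold J gl at hJ
      rw [hb, if_pos hA, if_pos hA] at hJ
      exact hJ
    by_cases hB : Ty B (t / 1000) x y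
    · left
      right
      refine ⟨hB, ?_⟩
      unfold J gl at hJ
      rw [hb, if_neg hA, if_neg hA, if_pos hB, if_pos hB] at hJ
      exact hJ
    · right
      refine ⟨hA, hB, ?_⟩
      by_contra hne
      unfold J gl at hJ
      rw [hb, if_neg hA, if_neg hA, if_neg hB, if_neg hB] at hJ
      by_cases ht : t < τ (t / 1000) x y
      · rw [if_pos ht, if_pos (by omega)] at hJ
        simp at hJ
      · rw [if_neg ht, if_neg (by omega)] at hJ
        simp at hJ
  · -- first time of a block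
    have e1 : (t - 1) / 1000 = t / 1000 - 1 := by omega
    have e2 : 1000 * (t / 1000) = t := by omega
    have e3 : 1000 * (t / 1000) - 1 = t - 1 := by omega
    have e4 : 1000 * ((t - 1) / 1000 + 1) = t := by omega
    have e5 : (t - 1) / 1000 + 1 = t / 1000 := by omega
    have n1 : t < τ (t / 1000) x y := by omega
    have n2 : ¬ (t - 1 < τ ((t - 1) / 1000) x y) := by omega
    left
    by_cases hA : Ty A (t / 1000) x y
    · left
      refine ⟨hA, ?_⟩
      unfold J gl at hJ
      rw [if_pos hA] at hJ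
      by_cases hA' : Ty A ((t - 1) / 1000) x y
      · rw [if_pos hA'] at hJ
        exact hJ
      by_cases hB' : Ty B ((t - 1) / 1000) x y
      · exact (no_both hF hA hB' (by rw [abs_le]; constructor <;> omega) (by simp) (by simp)).elim
      · rw [if_neg hA', if_neg hB', if_neg n2] at hJ
        unfold en at hJ
        rw [e5, if_pos hA, e2] at hJ
        simp at hJ
    by_cases hB : Ty B (t / 1000) x y
    · right
      refine ⟨hB, ?_⟩
      unfold J gl at hJ
      rw [if_neg hA, if_pos hB] at hJ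
      by_cases hA' : Ty A ((t - 1) / 1000) x y
      · exact (no_both hF hA' hB (by rw [abs_le]; constructor <;> omega) (by simp) (by simp)).elim
      rw [if_neg hA'] at hJ
      by_cases hB' : Ty B ((t - 1) / 1000) x y
      · rw [if_pos hB'] at hJ
        exact hJ
      · rw [if_neg hB', if_neg n2] at hJ
        unfold en at hJ
        rw [e5, if_neg hA, if_pos hB, e2] at hJ
        simp at hJ
    · exfalso
      unfold J gl at hJ
      rw [if_neg hA, if_neg hB, if_pos n1] at hJ
      unfold st at hJ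
      rw [← e1, e3] at hJ
      by_cases hA' : Ty A ((t - 1) / 1000) x y
      · rw [if_pos hA', if_pos hA'] at hJ
        simp at hJ
      rw [if_neg hA', if_neg hA'] at hJ
      by_cases hB' : Ty B ((t - 1) / 1000) x y
      · rw [if_pos hB', if_pos hB'] at hJ
        simp at hJ
      · rw [if_neg hB', if_neg hB', if_neg n2] at hJ
        unfold en at hJ
        rw [e5, if_neg hA, if_neg hB] at hJ
        simp at hJ

theorem gl_good {A B : ℤ → ℤ → ℤ → Prop} (hF : Far A B) {φ φ' : Field} (hG : Good 300 φ)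
    (hG' : Good 300 φ') {τ : ℤ → ℤ → ℤ → ℤ} (hτ : ∀ n x y, Tau A B φ φ' n x y (τ n x y)) :
    Good 300 (gl A B φ φ' τ) := by
  have hKT : ∀ {t x y : ℤ}, K A B φ φ' t x y → Ty A (t / 1000) x y ∨ Ty B (t / 1000) x y := by
    intro t x y h
    rcases h with h | h
    · exact Or.inl h.1
    · exact Or.inr h.1
  constructor
  · intro t x y t' x' y' h1 h2 h3 h4 h5
    have d3 := abs_le.1 h3
    have d4 := abs_le.1 h4
    have d5 := abs_le.1 h5
    have q1 := hτ (t / 1000) x y
    have q2 := hτ (t' / 1000) x' y'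
    unfold Tau at q1 q2
    obtain ⟨q1a, q1b, q1c, q1d⟩ := q1
    obtain ⟨q2a, q2b, q2c, q2d⟩ := q2
    rcases K_or hF hτ h1 with k1 | ⟨k1, k2, k3⟩ <;> rcases K_or hF hτ h2 with l1 | ⟨l1, l2, l3⟩
    · exact K_near hF hG hG' k1 l1 h3 h4 h5
    · exfalso
      rw [← l3] at q2a q2b q2c q2d
      by_cases hxy : x = x' ∧ y = y'
      · obtain ⟨rfl, rfl⟩ := hxy
        have e : t / 1000 = t' / 1000 := by omega
        rcases hKT k1 with h | h
        · rw [e] at h
          exact l1 h
        · rw [e] at h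
          exact l2 h
      · exact q2d t x y (by rw [abs_sub_comm]; exact h3) (by rw [abs_sub_comm]; exact h4)
          (by rw [abs_sub_comm]; exact h5) hxy k1
    · exfalso
      rw [← k3] at q1a q1b q1c q1d
      by_cases hxy : x' = x ∧ y' = y
      · obtain ⟨rfl, rfl⟩ := hxy
        have e : t' / 1000 = t / 1000 := by omega
        rcases hKT l1 with h | h
        · rw [e] at h
          exact k1 h
        · rw [e] at h
          exact k2 h
      · exact q1d t' x' y' h3 h4 h5 hxy l1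
    · rw [← k3] at q1a q1b q1c
      rw [← l3] at q2a q2b q2c
      unfold col at q1c q2c
      have e : t' / 1000 = t / 1000 := by omega
      have ex : x' = x := by
        by_contra hx
        omega
      have ey : y' = y := by
        by_contra hy
        omega
      refine ⟨?_, ex, ey⟩
      rw [e, ex, ey] at l3
      omega
  · intro t t' x y h1 h2 h3
    have d3 := abs_lt.1 h3
    have q1 := hτ (t / 1000) x y
    have q2 := hτ (t' / 1000) x y
    unfold Tau at q1 q2
    obtain ⟨q1a, q1b, q1c, q1d⟩ := q1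
    obtain ⟨q2a, q2b, q2c, q2d⟩ := q2
    rcases K_or hF hτ h1 with k1 | ⟨k1, k2, k3⟩ <;> rcases K_or hF hτ h2 with l1 | ⟨l1, l2, l3⟩
    · exact K_far hF hG hG' k1 l1 h3
    · exfalso
      rw [← l3] at q2a q2b
      have e : t / 1000 = t' / 1000 := by omega
      rcases hKT k1 with h | h
      · rw [e] at h
        exact l1 h
      · rw [e] at h
        exact l2 h
    · exfalso
      rw [← k3] at q1a q1b
      have e : t' / 1000 = t / 1000 := by omega
      rcases hKT l1 with h | h
      · rw [e] at h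
        exact k1 h
      · rw [e] at h
        exact k2 h
    · rw [← k3] at q1a q1b
      rw [← l3] at q2a q2b
      have e : t' / 1000 = t / 1000 := by omega
      rw [e] at l3
      omega

/-- gluing of admissible fields -/
theorem glue {A B : ℤ → ℤ → ℤ → Prop} (hF : Far A B) {φ φ' : Field} (hG : Good 300 φ) (hG' : Good 300 φ') :
    ∃ ψ : Field, Good 300 ψ ∧ (∀ t x y, Near A t x y → ψ t x y = φ t x y) ∧
      (∀ t x y, Near B t x y → ψ t x y = φ' t x y) := by
  choose τ hτ using exists_tau hF hG hG'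
  refine ⟨gl A B φ φ' τ, gl_good hF hG hG' hτ, fun t x y h => ?_, fun t x y h => ?_⟩
  · unfold gl
    rw [if_pos ⟨t, rfl, h⟩]
  · have hB : Ty B (t / 1000) x y := ⟨t, rfl, h⟩
    unfold gl
    rw [if_neg (fun hA => no_both hF hA hB (by simp) (by simp) (by simp)), if_pos hB]

end Pool.Agent.Q115.DT
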