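import Pool.Agent.Q115.DT.Glue
import Mathlib.Topology.Constructions
import Mathlib.Topology.Compactness.Compact
import Mathlib.Topology.MetricSpace.Pseudo.Pi
import Mathlib.Topology.Instances.Int

/-!
# From `ℤ³` to `ℤᵈ`: independent layers
-/

set_option autoImplicit false

namespace Pool.Agent.Q115.DT

open Dir

variable {d : ℕ}

/-- the first three coordinates replaced -/
def mk (v : Fin d → ℤ) (t x y : ℤ) : Fin d → ℤ := fun i =>
  if (i : ℕ) = 0 then t else if (i : ℕ) = 1 then x else if (i : ℕ) = 2 then y else v i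

/-- the vector of a direction -/
def vec (D : Dir) : Fin d → ℤ := fun i =>
  if (i : ℕ) = 0 then dt D else if (i : ℕ) = 1 then dx D else if (i : ℕ) = 2 then dy D else 0

/-- the layer of a field -/
def lay (φ : (Fin d → ℤ) → Bool) (v : Fin d → ℤ) : Field := fun t x y => φ (mk v t x y)

theorem mk_mk (v : Fin d → ℤ) (t x y t' x' y' : ℤ) : mk (mk v t x y) t' x' y' = mk v t' x' y' := by
  funext i
  unfold mk
  split_ifs <;> rfl

theorem lay_mk (φ : (Fin d → ℤ) → Bool) (v : Fin d → ℤ) (t x y : ℤ) : lay φ (mk v t x y) = lay φ v := by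
  funext t' x' y'
  unfold lay
  rw [mk_mk]

/-- first coordinates -/
def c0 (hd : 3 ≤ d) (v : Fin d → ℤ) : ℤ := v ⟨0, by omega⟩

/-- second coordinate -/
def c1 (hd : 3 ≤ d) (v : Fin d → ℤ) : ℤ := v ⟨1, by omega⟩

/-- third coordinate -/
def c2 (hd : 3 ≤ d) (v : Fin d → ℤ) : ℤ := v ⟨2, by omega⟩

theorem mk_self (hd : 3 ≤ d) (v : Fin d → ℤ) : mk v (c0 hd v) (c1 hd v) (c2 hd v) = v := by
  funext i
  unfold mk c0 c1 c2
  split_ifs with h1 h2 h3
  · exact congrArg v (Fin.ext h1.symm)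
  · exact congrArg v (Fin.ext h2.symm)
  · exact congrArg v (Fin.ext h3.symm)
  · rfl

theorem add_vec (hd : 3 ≤ d) (v : Fin d → ℤ) (D : Dir) :
    v + vec D = mk v (c0 hd v + dt D) (c1 hd v + dx D) (c2 hd v + dy D) := by
  conv_lhs => rw [← mk_self hd v]
  funext i
  simp only [Pi.add_apply]
  unfold mk vec
  split_ifs <;> simp

theorem c0_mk (hd : 3 ≤ d) (v : Fin d → ℤ) (t x y : ℤ) : c0 hd (mk v t x y) = t := by
  unfold c0 mk
  simp

theorem c1_mk (hd : 3 ≤ d) (v : Fin d → ℤ) (t x y : ℤ) : c1 hd (mk v t x y) = x := by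
  unfold c1 mk
  simp

theorem c2_mk (hd : 3 ≤ d) (v : Fin d → ℤ) (t x y : ℤ) : c2 hd (mk v t x y) = y := by
  unfold c2 mk
  simp

/-- the tiling of `ℤᵈ` -/
noncomputable def Psid (hd : 3 ≤ d) (φ : (Fin d → ℤ) → Bool) (v : Fin d → ℤ) : Fin d → ℤ :=
  vec (Psi (lay φ v) (c0 hd v) (c1 hd v) (c2 hd v))

theorem vec_opp (D : Dir) : (vec (opp D) : Fin d → ℤ) = - vec D := by
  funext i
  simp only [Pi.neg_apply]
  unfold vec
  cases D <;> simp only [opp, dt, dx, dy] <;> split_ifs <;> simp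

theorem vec_unit (hd : 3 ≤ d) (D : Dir) :
    ∃ i : Fin d, (vec D : Fin d → ℤ) = Pi.single i 1 ∨ (vec D : Fin d → ℤ) = - Pi.single i 1 := by
  have key : ∀ (k : ℕ) (hk : k < d) (w : Fin d → ℤ), (∀ i : Fin d, w i = if (i : ℕ) = k then 1 else 0) →
      w = Pi.single ⟨k, hk⟩ 1 := by
    intro k hk w hw
    funext i
    rw [hw i, Pi.single_apply]
    congr 1
    rw [Fin.ext_iff]
  have key2 : ∀ (k : ℕ) (hk : k < d) (w : Fin d → ℤ), (∀ i : Fin d, w i = if (i : ℕ) = k then -1 else 0) →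
      w = - Pi.single ⟨k, hk⟩ 1 := by
    intro k hk w hw
    funext i
    rw [hw i, Pi.neg_apply, Pi.single_apply]
    by_cases h : (i : ℕ) = k
    · rw [if_pos h, if_pos (Fin.ext h)]
    · rw [if_neg h, if_neg (fun h' => h (by rw [h']))]
      rfl
  cases D with
  | tp => exact ⟨⟨0, by omega⟩, Or.inl (key 0 _ _ fun i => by unfold vec dt dx dy; split_ifs <;> simp_all)⟩
  | tm => exact ⟨⟨0, by omega⟩, Or.inr (key2 0 _ _ fun i => by unfold vec dt dx dy; split_ifs <;> simp_all)⟩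
  | xp => exact ⟨⟨1, by omega⟩, Or.inl (key 1 _ _ fun i => by unfold vec dt dx dy; split_ifs <;> simp_all)⟩
  | xm => exact ⟨⟨1, by omega⟩, Or.inr (key2 1 _ _ fun i => by unfold vec dt dx dy; split_ifs <;> simp_all)⟩
  | yp => exact ⟨⟨2, by omega⟩, Or.inl (key 2 _ _ fun i => by unfold vec dt dx dy; split_ifs <;> simp_all)⟩
  | ym => exact ⟨⟨2, by omega⟩, Or.inr (key2 2 _ _ fun i => by unfold vec dt dx dy; split_ifs <;> simp_all)⟩

/-- admissible fields on `ℤᵈ` -/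
def GoodD (φ : (Fin d → ℤ) → Bool) : Prop := ∀ v, Good 300 (lay φ v)

theorem matchD (hd : 3 ≤ d) {φ : (Fin d → ℤ) → Bool} (hG : GoodD φ) (v : Fin d → ℤ) :
    Psid hd φ (v + Psid hd φ v) = - Psid hd φ v := by
  have h := matching (hG v) (c0 hd v) (c1 hd v) (c2 hd v) _ rfl
  unfold Psid
  rw [← vec_opp, add_vec hd v, lay_mk, c0_mk, c1_mk, c2_mk, h]

theorem cont_of_finite {ι α : Type*} [TopologicalSpace α] (g : (ι → Bool) → α) (F : Finset ι)
    (h : ∀ φ ψ : ι → Bool, (∀ i ∈ F, φ i = ψ i) → g φ = g ψ) : Continuous g := by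
  classical
  let g' : (F → Bool) → α := fun r => g (fun i => if hi : i ∈ F then r ⟨i, hi⟩ else false)
  have e : g = g' ∘ (fun φ : ι → Bool => fun i : F => φ i) := by
    funext φ
    refine h _ _ fun i hi => ?_
    simp [hi]
  rw [e]
  refine Continuous.comp continuous_of_discreteTopology ?_
  exact continuous_pi fun i => continuous_apply _

theorem cont_Psid (hd : 3 ≤ d) : Continuous (Psid hd) := by
  refine continuous_pi fun v => ?_
  classical
  refine cont_of_finite (fun φ => Psid hd φ v)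
    ((Finset.Icc (c0 hd v - 4) (c0 hd v + 4) ×ˢ (Finset.Icc (c1 hd v - 4) (c1 hd v + 4) ×ˢ
      Finset.Icc (c2 hd v - 4) (c2 hd v + 4))).image (fun p : ℤ × ℤ × ℤ => mk v p.1 p.2.1 p.2.2)) ?_
  intro φ ψ h
  change vec _ = vec _
  congr 1
  refine local_Psi fun t x y h1 h2 h3 => h _ ?_
  rw [Finset.mem_image]
  refine ⟨(t, x, y), ?_, rfl⟩
  rw [abs_le] at h1 h2 h3
  simp only [Finset.mem_product, Finset.mem_Icc]
  refine ⟨⟨by omega, by omega⟩, ⟨by omega, by omega⟩, ⟨by omega, by omega⟩⟩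

theorem closed_GoodD : IsClosed {φ : (Fin d → ℤ) → Bool | GoodD φ} := by
  have hJ : ∀ (v : Fin d → ℤ) (t x y : ℤ), Continuous fun φ : (Fin d → ℤ) → Bool => J (lay φ v) t x y := by
    intro v t x y
    classical
    refine cont_of_finite _ {mk v t x y, mk v (t - 1) x y} fun φ ψ h => ?_
    unfold J lay
    rw [h _ (by simp), h _ (by simp)]
  have key : ∀ (v : Fin d → ℤ) (t x y t' x' y' : ℤ) (P : Prop),
      IsClosed {φ : (Fin d → ℤ) → Bool | J (lay φ v) t x y = true → J (lay φ v) t' x' y' = true → P} := by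
    intro v t x y t' x' y' P
    by_cases hP : P
    · simp [hP]
    · have e : {φ : (Fin d → ℤ) → Bool | J (lay φ v) t x y = true → J (lay φ v) t' x' y' = true → P} =
          {φ | J (lay φ v) t x y = false} ∪ {φ | J (lay φ v) t' x' y' = false} := by
        ext φ
        simp only [Set.mem_ofPred_eq, Set.mem_union]
        cases J (lay φ v) t x y <;> cases J (lay φ v) t' x' y' <;> simp [hP]
      rw [e]
      exact (isClosed_eq (hJ v t x y) continuous_const).union (isClosed_eq (hJ v t' x' y') continuous_const)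
  have e : {φ : (Fin d → ℤ) → Bool | GoodD φ} =
      (⋂ v, ⋂ t, ⋂ x, ⋂ y, ⋂ t', ⋂ x', ⋂ y', {φ : (Fin d → ℤ) → Bool | J (lay φ v) t x y = true →
        J (lay φ v) t' x' y' = true → (|t' - t| ≤ 2 → |x' - x| ≤ 1 → |y' - y| ≤ 1 → t' = t ∧ x' = x ∧ y' = y)}) ∩
      (⋂ v, ⋂ t, ⋂ t', ⋂ x, ⋂ y, {φ : (Fin d → ℤ) → Bool | J (lay φ v) t x y = true →
        J (lay φ v) t' x y = true → (|t' - t| < 300 → t' = t)}) := by
    ext φ
    simp only [Set.mem_inter_iff, Set.mem_iInter, Set.mem_ofPred_eq]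
    constructor
    · intro h
      exact ⟨fun v t x y t' x' y' h1 h2 h3 h4 h5 => (h v).near _ _ _ _ _ _ h1 h2 h3 h4 h5,
        fun v t t' x y h1 h2 h3 => (h v).far _ _ _ _ h1 h2 h3⟩
    · rintro ⟨h1, h2⟩ v
      exact ⟨h1 v, h2 v⟩
  rw [e]
  refine IsClosed.inter ?_ ?_
  · refine isClosed_iInter fun v => isClosed_iInter fun t => isClosed_iInter fun x => isClosed_iInter fun y =>
      isClosed_iInter fun t' => isClosed_iInter fun x' => isClosed_iInter fun y' => key _ _ _ _ _ _ _ _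
  · refine isClosed_iInter fun v => isClosed_iInter fun t => isClosed_iInter fun t' => isClosed_iInter fun x =>
      isClosed_iInter fun y => key _ _ _ _ _ _ _ _

/-- the shifted field -/
def shfD (hd : 3 ≤ d) (u : Fin d → ℤ) (φ : (Fin d → ℤ) → Bool) : (Fin d → ℤ) → Bool := fun w =>
  shf (c0 hd u) (c1 hd u) (c2 hd u) (lay φ (u + w)) (c0 hd w) (c1 hd w) (c2 hd w)

theorem add_mk (hd : 3 ≤ d) (u v : Fin d → ℤ) (t x y : ℤ) :
    u + mk v t x y = mk (u + v) (c0 hd u + t) (c1 hd u + x) (c2 hd u + y) := by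
  conv_lhs => rw [← mk_self hd u]
  funext i
  simp only [Pi.add_apply]
  unfold mk
  split_ifs <;> simp

theorem lay_shfD (hd : 3 ≤ d) (u : Fin d → ℤ) (φ : (Fin d → ℤ) → Bool) (v : Fin d → ℤ) :
    lay (shfD hd u φ) v = shf (c0 hd u) (c1 hd u) (c2 hd u) (lay φ (u + v)) := by
  funext t x y
  change shfD hd u φ (mk v t x y) = _
  unfold shfD
  rw [add_mk hd, lay_mk, c0_mk, c1_mk, c2_mk]

theorem shfD_good (hd : 3 ≤ d) (u : Fin d → ℤ) {φ : (Fin d → ℤ) → Bool} (hG : GoodD φ) :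
    GoodD (shfD hd u φ) := by
  intro v
  rw [lay_shfD]
  exact shf_Good _ _ _ (hG _)

theorem shfD_Psid (hd : 3 ≤ d) (u : Fin d → ℤ) (φ : (Fin d → ℤ) → Bool) (v : Fin d → ℤ) :
    Psid hd (shfD hd u φ) v = Psid hd φ (u + v) := by
  unfold Psid
  rw [lay_shfD, shf_Psi]
  have e0 : c0 hd (u + v) = c0 hd v + c0 hd u := by
    unfold c0
    rw [Pi.add_apply, add_comm]
  have e1 : c1 hd (u + v) = c1 hd v + c1 hd u := by
    unfold c1
    rw [Pi.add_apply, add_comm]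
  have e2 : c2 hd (u + v) = c2 hd v + c2 hd u := by
    unfold c2
    rw [Pi.add_apply, add_comm]
  rw [e0, e1, e2]

theorem glueD (hd : 3 ≤ d) {φ φ' : (Fin d → ℤ) → Bool} (hG : GoodD φ) (hG' : GoodD φ')
    (A B : Set (Fin d → ℤ)) (hAB : ∀ a ∈ A, ∀ b ∈ B, ((3000 : ℕ) : ℝ) ≤ dist a b) :
    ∃ ψ, GoodD ψ ∧ (∀ v ∈ A, Psid hd ψ v = Psid hd φ v) ∧ (∀ v ∈ B, Psid hd ψ v = Psid hd φ' v) := by
  have hF : ∀ w : Fin d → ℤ, Far (fun a b c => mk w a b c ∈ A) (fun a b c => mk w a b c ∈ B) := by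
    intro w a b c a' b' c' h1 h2
    by_contra hc
    push Not at hc
    obtain ⟨k1, k2, k3⟩ := hc
    have h := hAB _ h1 _ h2
    have h' : dist (mk w a b c) (mk w a' b' c') < ((3000 : ℕ) : ℝ) := by
      rw [dist_pi_lt_iff (by norm_num)]
      intro i
      rw [Int.dist_eq]
      have : |mk w a b c i - mk w a' b' c' i| < 3000 := by
        unfold mk
        split_ifs
        · exact k1
        · exact k2
        · exact k3
        · simp
      have h3 : ((|mk w a b c i - mk w a' b' c' i| : ℤ) : ℝ) < ((3000 : ℤ) : ℝ) := by exact_mod_cast this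
      push_cast at h3 ⊢
      exact h3
    linarith
  choose Ψ g1 g2 g3 using fun w : Fin d → ℤ => glue (hF w) (hG w) (hG' w)
  let base : (Fin d → ℤ) → (Fin d → ℤ) := fun v => mk v 0 0 0
  let ψ : (Fin d → ℤ) → Bool := fun v => Ψ (base v) (c0 hd v) (c1 hd v) (c2 hd v)
  have hl : ∀ v, lay ψ v = Ψ (base v) := by
    intro v
    funext t x y
    change Ψ (base (mk v t x y)) (c0 hd (mk v t x y)) (c1 hd (mk v t x y)) (c2 hd (mk v t x y)) = _
    rw [c0_mk, c1_mk, c2_mk]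
    change Ψ (mk (mk v t x y) 0 0 0) t x y = Ψ (mk v 0 0 0) t x y
    rw [mk_mk]
  have hb : ∀ (f : (Fin d → ℤ) → Bool) (v : Fin d → ℤ), lay f (base v) = lay f v := fun f v => lay_mk f v 0 0 0
  have hm : ∀ v : Fin d → ℤ, mk (base v) (c0 hd v) (c1 hd v) (c2 hd v) = v := fun v => by
    change mk (mk v 0 0 0) _ _ _ = _
    rw [mk_mk, mk_self]
  refine ⟨ψ, fun v => ?_, fun v hv => ?_, fun v hv => ?_⟩
  · rw [hl]
    exact g1 _
  · unfold Psid
    congr 1
    refine local_Psi fun t x y h1 h2 h3 => ?_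
    have hv' : mk (base v) (c0 hd v) (c1 hd v) (c2 hd v) ∈ A := by
      rw [hm]
      exact hv
    rw [hl, g2 _ _ _ _ ⟨c0 hd v, c1 hd v, c2 hd v, hv', h1, h2, h3⟩, hb]
  · unfold Psid
    congr 1
    refine local_Psi fun t x y h1 h2 h3 => ?_
    have hv' : mk (base v) (c0 hd v) (c1 hd v) (c2 hd v) ∈ B := by
      rw [hm]
      exact hv
    rw [hl, g3 _ _ _ _ ⟨c0 hd v, c1 hd v, c2 hd v, hv', h1, h2, h3⟩, hb]

/-- for `d ≥ 3` the domino tilings of `ℤᵈ` contain a nonempty strongly irreducible subshift -/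
theorem main (d : ℕ) (hd : 3 ≤ d) :
    ∃ X : Set ((Fin d → ℤ) → (Fin d → ℤ)), X.Nonempty ∧
      (∀ x ∈ X, ∀ v, (∃ i : Fin d, x v = Pi.single i 1 ∨ x v = - Pi.single i 1) ∧ x (v + x v) = - x v) ∧
      IsClosed X ∧ (∀ u : Fin d → ℤ, ∀ x ∈ X, (fun v => x (u + v)) ∈ X) ∧
      ∃ k : ℕ, ∀ x ∈ X, ∀ y ∈ X, ∀ A B : Set (Fin d → ℤ), (∀ a ∈ A, ∀ b ∈ B, (k : ℝ) ≤ dist a b) →
        ∃ z ∈ X, (∀ v ∈ A, z v = x v) ∧ (∀ v ∈ B, z v = y v) := by
  refine ⟨Psid hd '' {φ | GoodD φ}, ?_, ?_, ?_, ?_, 3000, ?_⟩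
  · refine ⟨_, fun _ => false, fun v => ?_, rfl⟩
    constructor
    · intro t x y t' x' y' h
      simp [J, lay] at h
    · intro t t' x y h
      simp [J, lay] at h
  · rintro _ ⟨φ, hφ, rfl⟩ v
    exact ⟨vec_unit hd _, matchD hd hφ v⟩
  · exact (closed_GoodD.isCompact.image (cont_Psid hd)).isClosed
  · rintro u _ ⟨φ, hφ, rfl⟩
    exact ⟨shfD hd u φ, shfD_good hd u hφ, funext fun v => shfD_Psid hd u φ v⟩
  · rintro _ ⟨φ, hφ, rfl⟩ _ ⟨φ', hφ', rfl⟩ A B hAB
    obtain ⟨ψ, h1, h2, h3⟩ := glueD hd hφ hφ' A B hAB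
    exact ⟨_, ⟨ψ, h1, rfl⟩, h2, h3⟩

end Pool.Agent.Q115.DT
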