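import Pool.Agent.Q115.DT.Match

/-!
# Domino tilings of `ℤ³` from binary fields: the matching property (main theorem), shifts, locality
-/

set_option autoImplicit false

namespace Pool.Agent.Q115.DT

open Dir

theorem valid {T : ℤ} {φ : Field} (hG : Good T φ) (t x y : ℤ) (hJ : J φ t x y = true) (i : Fin 4)
    (j : Fin 3) : Ok1 (av φ t x y) (cv φ t x y) i j ∧ Ok2 (av φ t x y) (cv φ t x y) i j := by
  have hb : t.bodd = !(t - 1).bodd := by rw [bodd_sub_one, Bool.not_not]
  have hF := flip hG hJ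
  have hS : ∀ x' y' : ℤ, |x' - x| ≤ 1 → |y' - y| ≤ 1 → ¬ (x' = x ∧ y' = y) →
      φ (t + 2) x' y' = φ (t - 1) x' y' := fun x' y' h1 h2 h3 => stay hG hJ h1 h2 h3
  have A0 : av φ t x y 0 = s φ (t - 1) x y := by simp [av, cx, cy]
  have A1 : av φ t x y 1 = s φ (t - 1) (x + 1) y := by simp [av, cx, cy]
  have A2 : av φ t x y 2 = s φ (t - 1) (x + 1) (y + 1) := by simp [av, cx, cy]
  have A3 : av φ t x y 3 = s φ (t - 1) x (y + 1) := by simp [av, cx, cy]
  have C0 : cv φ t x y 0 = s φ (t + 2) x y := by simp [cv, cx, cy]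
  have C1 : cv φ t x y 1 = s φ (t + 2) (x + 1) y := by simp [cv, cx, cy]
  have C2 : cv φ t x y 2 = s φ (t + 2) (x + 1) (y + 1) := by simp [cv, cx, cy]
  have C3 : cv φ t x y 3 = s φ (t + 2) x (y + 1) := by simp [cv, cx, cy]
  -- the four vertices
  have v0 := case0 x.bodd (t - 1).bodd (φ (t - 1) x y) (φ (t - 1) (x - 1) y) (φ (t - 1) x (y - 1))
    (φ (t - 1) (x - 1) (y - 1))
  have v1 := case1 (x + 1).bodd (t - 1).bodd (φ (t - 1) (x + 1) y) (φ (t - 1) x y)
    (φ (t - 1) (x + 1) (y - 1)) (φ (t - 1) x (y - 1))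
  have v2 := case2 (x + 1).bodd (t - 1).bodd (φ (t - 1) (x + 1) (y + 1)) (φ (t - 1) x (y + 1))
    (φ (t - 1) (x + 1) y) (φ (t - 1) x y)
  have v3 := case3 x.bodd (t - 1).bodd (φ (t - 1) x (y + 1)) (φ (t - 1) (x - 1) (y + 1))
    (φ (t - 1) x y) (φ (t - 1) (x - 1) y)
  have a0 : s φ (t - 1) x y = S x.bodd (t - 1).bodd (φ (t - 1) x y) (φ (t - 1) (x - 1) y)
    (φ (t - 1) x (y - 1)) (φ (t - 1) (x - 1) (y - 1)) := s_eq _ _ _ _
  have a1 : s φ (t - 1) (x + 1) y = S (x + 1).bodd (t - 1).bodd (φ (t - 1) (x + 1) y) (φ (t - 1) x y)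
    (φ (t - 1) (x + 1) (y - 1)) (φ (t - 1) x (y - 1)) := by
    rw [s_eq, add_sub_cancel_right]
  have a2 : s φ (t - 1) (x + 1) (y + 1) = S (x + 1).bodd (t - 1).bodd (φ (t - 1) (x + 1) (y + 1))
    (φ (t - 1) x (y + 1)) (φ (t - 1) (x + 1) y) (φ (t - 1) x y) := by
    rw [s_eq, add_sub_cancel_right, add_sub_cancel_right]
  have a3 : s φ (t - 1) x (y + 1) = S x.bodd (t - 1).bodd (φ (t - 1) x (y + 1))
    (φ (t - 1) (x - 1) (y + 1)) (φ (t - 1) x y) (φ (t - 1) (x - 1) y) := by
    rw [s_eq, add_sub_cancel_right]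
  have c0 : s φ (t + 2) x y = S x.bodd (!(t - 1).bodd) (!φ (t - 1) x y) (φ (t - 1) (x - 1) y)
    (φ (t - 1) x (y - 1)) (φ (t - 1) (x - 1) (y - 1)) := by
    rw [s_eq, bodd_add_two, hb, hF, hS (x - 1) y (by simp) (by simp) (by omega),
      hS x (y - 1) (by simp) (by simp) (by omega), hS (x - 1) (y - 1) (by simp) (by simp) (by omega)]
  have c1 : s φ (t + 2) (x + 1) y = S (x + 1).bodd (!(t - 1).bodd) (φ (t - 1) (x + 1) y)
    (!φ (t - 1) x y) (φ (t - 1) (x + 1) (y - 1)) (φ (t - 1) x (y - 1)) := by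
    rw [s_eq, bodd_add_two, hb, add_sub_cancel_right, hF, hS (x + 1) y (by simp) (by simp) (by omega),
      hS (x + 1) (y - 1) (by simp) (by simp) (by omega), hS x (y - 1) (by simp) (by simp) (by omega)]
  have c2 : s φ (t + 2) (x + 1) (y + 1) = S (x + 1).bodd (!(t - 1).bodd) (φ (t - 1) (x + 1) (y + 1))
    (φ (t - 1) x (y + 1)) (φ (t - 1) (x + 1) y) (!φ (t - 1) x y) := by
    rw [s_eq, bodd_add_two, hb, add_sub_cancel_right, add_sub_cancel_right, hF,
      hS (x + 1) (y + 1) (by simp) (by simp) (by omega), hS x (y + 1) (by simp) (by simp) (by omega),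
      hS (x + 1) y (by simp) (by simp) (by omega)]
  have c3 : s φ (t + 2) x (y + 1) = S x.bodd (!(t - 1).bodd) (φ (t - 1) x (y + 1))
    (φ (t - 1) (x - 1) (y + 1)) (!φ (t - 1) x y) (φ (t - 1) (x - 1) y) := by
    rw [s_eq, bodd_add_two, hb, add_sub_cancel_right, hF,
      hS x (y + 1) (by simp) (by simp) (by omega), hS (x - 1) (y + 1) (by simp) (by simp) (by omega),
      hS (x - 1) y (by simp) (by simp) (by omega)]
  -- labels of the four edges
  have g0 : gh φ (t - 1) x y = !(x.bodd ^^ ((t - 1).bodd ^^ (φ (t - 1) x y ^^ φ (t - 1) x (y - 1)))) := rfl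
  have g0' : gh φ (t - 1) x y =
      !(!(x + 1).bodd ^^ ((t - 1).bodd ^^ (φ (t - 1) x y ^^ φ (t - 1) x (y - 1)))) := by
    rw [g0, bodd_add_one, Bool.not_not]
  have g1 : gu φ (t - 1) (x + 1) y = ((t - 1).bodd ^^ (φ (t - 1) (x + 1) y ^^ φ (t - 1) x y)) := by
    unfold gu
    rw [add_sub_cancel_right]
  have g2 : gh φ (t - 1) x (y + 1) =
      !(x.bodd ^^ ((t - 1).bodd ^^ (φ (t - 1) x (y + 1) ^^ φ (t - 1) x y))) := by
    unfold gh
    rw [add_sub_cancel_right]
  have g2' : gh φ (t - 1) x (y + 1) =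
      !(!(x + 1).bodd ^^ ((t - 1).bodd ^^ (φ (t - 1) x (y + 1) ^^ φ (t - 1) x y))) := by
    rw [g2, bodd_add_one, Bool.not_not]
  have g3 : gu φ (t - 1) x y = ((t - 1).bodd ^^ (φ (t - 1) x y ^^ φ (t - 1) (x - 1) y)) := rfl
  rw [← a0, ← c0, ← g0, ← g3] at v0
  rw [← a1, ← c1, ← g1, ← g0'] at v1
  rw [← a2, ← c2, ← g1, ← g2'] at v2
  rw [← a3, ← c3, ← g2, ← g3] at v3
  refine ok1 ![gh φ (t - 1) x y, gu φ (t - 1) (x + 1) y, gh φ (t - 1) x (y + 1), gu φ (t - 1) x y]
    _ _ ?_ ?_ i j
  · intro k hk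
    fin_cases k
    · change av φ t x y 0 = gh φ (t - 1) x y ∧ cv φ t x y 0 = gh φ (t - 1) x y
      rw [A0, C0]
      exact v0.1 hk
    · change av φ t x y 1 = gu φ (t - 1) (x + 1) y ∧ cv φ t x y 1 = gu φ (t - 1) (x + 1) y
      rw [A1, C1]
      exact v1.1 hk
    · change av φ t x y 2 = gh φ (t - 1) x (y + 1) ∧ cv φ t x y 2 = gh φ (t - 1) x (y + 1)
      rw [A2, C2]
      exact v2.1 hk
    · change av φ t x y 3 = gu φ (t - 1) x y ∧ cv φ t x y 3 = gu φ (t - 1) x y
      rw [A3, C3]
      exact v3.1 hk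
  · intro k hk
    fin_cases k
    · change cv φ t x y 0 = !av φ t x y 0
      rw [A0, C0]
      exact v0.2 hk
    · change cv φ t x y 1 = !av φ t x y 1
      rw [A1, C1]
      exact v1.2 hk
    · change cv φ t x y 2 = !av φ t x y 2
      rw [A2, C2]
      exact v2.2 hk
    · change cv φ t x y 3 = !av φ t x y 3
      rw [A3, C3]
      exact v3.2 hk

/-- the direction field is a domino tiling -/
theorem matching {T : ℤ} {φ : Field} (hG : Good T φ) (t x y : ℤ) (d : Dir) (hd : Psi φ t x y = d) :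
    Psi φ (t + dt d) (x + dx d) (y + dy d) = opp d := by
  have hV := valid hG
  by_cases hp : ∃ p, inB φ t x y p = true
  · obtain ⟨⟨i, j⟩, hp⟩ := hp
    have hJ : J φ (t - (j : ℕ)) (x - cx i) (y - cy i) = true := hp
    have hB : ∀ (i' : Fin 4) (j' : Fin 3) (t' x' y' : ℤ), t' = t - (j : ℕ) + (j' : ℕ) → x' = x - cx i + cx i' →
        y' = y - cy i + cy i' → Psi φ t' x' y' =
          D (av φ (t - (j : ℕ)) (x - cx i) (y - cy i)) (cv φ (t - (j : ℕ)) (x - cx i) (y - cy i)) i' j' :=
      fun i' j' t' x' y' h1 h2 h3 => Psi_box hG hJ i' j' t' x' y' h1 h2 h3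
    have hU : ∀ q, inB φ t x y q = true → q = (i, j) := fun q hq => uniq hG hp hq
    obtain ⟨⟨_, _, k3, k4⟩, k5, k6, k7, k8⟩ := hV _ _ _ hJ i j
    rw [hB i j t x y (by ring) (by ring) (by ring)] at hd
    rw [hd] at k3 k4 k5 k6 k7 k8
    cases d with
    | tp =>
      change Psi φ (t + 1) (x + 0) (y + 0) = tm
      rw [add_zero, add_zero]
      rcases k3 rfl with ⟨hj, hc⟩ | ⟨hj, hc⟩ | ⟨hj, hc⟩
      · refine enter hG ?_ ?_ hV
        · rw [hj] at hc
          unfold cv at hc
          simpa using hc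
        · intro q hq
          by_contra hcon
          have h1 : inB φ t x y (q.1, q.2 - 1) = true := by
            unfold inB at hcon ⊢
            have e : ((q.2 - 1 : Fin 3) : ℕ) + 1 = (q.2 : ℕ) := by
              revert hq
              generalize q.2 = z
              revert z
              decide
            have e2 : t - (((q.2 - 1 : Fin 3) : ℕ) : ℤ) = t + 1 - ((q.2 : ℕ) : ℤ) := by
              have : (((q.2 - 1 : Fin 3) : ℕ) : ℤ) + 1 = ((q.2 : ℕ) : ℤ) := by exact_mod_cast e
              omega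
            simpa [e2] using hcon
          have h2 := congrArg Prod.snd (hU _ h1)
          simp only at h2
          rw [hj] at h2
          revert hq h2
          generalize q.2 = z
          revert z
          decide
      · rw [hB i 1 (t + 1) x y (by rw [hj]; simp) (by ring) (by ring)]
        exact hc
      · rw [hB i 2 (t + 1) x y (by rw [hj]; simp; ring) (by ring) (by ring)]
        exact hc
    | tm =>
      change Psi φ (t + -1) (x + 0) (y + 0) = tp
      rw [add_zero, add_zero, ← sub_eq_add_neg]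
      rcases k4 rfl with ⟨hj, hc⟩ | ⟨hj, hc⟩ | ⟨hj, hc⟩
      · refine leave hG ?_ ?_ hV
        · rw [hj] at hc
          unfold av at hc
          simpa using hc
        · intro q hq
          by_contra hcon
          have h1 : inB φ t x y (q.1, q.2 + 1) = true := by
            unfold inB at hcon ⊢
            have e : ((q.2 + 1 : Fin 3) : ℕ) = (q.2 : ℕ) + 1 := by
              revert hq
              generalize q.2 = z
              revert z
              decide
            have e2 : t - (((q.2 + 1 : Fin 3) : ℕ) : ℤ) = t - 1 - ((q.2 : ℕ) : ℤ) := by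
              have : (((q.2 + 1 : Fin 3) : ℕ) : ℤ) = ((q.2 : ℕ) : ℤ) + 1 := by exact_mod_cast e
              omega
            simpa [e2] using hcon
          have h2 := congrArg Prod.snd (hU _ h1)
          simp only at h2
          rw [hj] at h2
          revert hq h2
          generalize q.2 = z
          revert z
          decide
      · rw [hB i 0 (t - 1) x y (by rw [hj]; simp) (by ring) (by ring)]
        exact hc
      · rw [hB i 1 (t - 1) x y (by rw [hj]; simp; ring) (by ring) (by ring)]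
        exact hc
    | xp =>
      change Psi φ (t + 0) (x + 1) (y + 0) = xm
      rw [add_zero, add_zero]
      rcases k5 rfl with ⟨hj, hc⟩ | ⟨hj, hc⟩
      · rw [hB 1 j t (x + 1) y (by ring) (by rw [hj]; simp [cx]) (by rw [hj]; simp [cy])]
        exact hc
      · rw [hB 2 j t (x + 1) y (by ring) (by rw [hj]; simp [cx]) (by rw [hj]; simp [cy])]
        exact hc
    | xm =>
      change Psi φ (t + 0) (x + -1) (y + 0) = xp
      rw [add_zero, add_zero, ← sub_eq_add_neg]
      rcases k6 rfl with ⟨hj, hc⟩ | ⟨hj, hc⟩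
      · rw [hB 0 j t (x - 1) y (by ring) (by rw [hj]; simp [cx]) (by rw [hj]; simp [cy])]
        exact hc
      · rw [hB 3 j t (x - 1) y (by ring) (by rw [hj]; simp [cx]) (by rw [hj]; simp [cy])]
        exact hc
    | yp =>
      change Psi φ (t + 0) (x + 0) (y + 1) = ym
      rw [add_zero, add_zero]
      rcases k7 rfl with ⟨hj, hc⟩ | ⟨hj, hc⟩
      · rw [hB 3 j t x (y + 1) (by ring) (by rw [hj]; simp [cx]) (by rw [hj]; simp [cy])]
        exact hc
      · rw [hB 2 j t x (y + 1) (by ring) (by rw [hj]; simp [cx]) (by rw [hj]; simp [cy])]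
        exact hc
    | ym =>
      change Psi φ (t + 0) (x + 0) (y + -1) = yp
      rw [add_zero, add_zero, ← sub_eq_add_neg]
      rcases k8 rfl with ⟨hj, hc⟩ | ⟨hj, hc⟩
      · rw [hB 0 j t x (y - 1) (by ring) (by rw [hj]; simp [cx]) (by rw [hj]; simp [cy])]
        exact hc
      · rw [hB 1 j t x (y - 1) (by ring) (by rw [hj]; simp [cx]) (by rw [hj]; simp [cy])]
        exact hc
  · have hp' : ∀ p, inB φ t x y p = false := fun p => by
      by_contra hc
      exact hp ⟨p, by simpa using hc⟩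
    rw [Psi_out hp'] at hd
    by_cases hs : s φ t x y = true
    · rw [if_pos hs] at hd
      subst hd
      change Psi φ (t + 1) (x + 0) (y + 0) = tm
      rw [add_zero, add_zero]
      refine enter hG hs (fun q hq => ?_) hV
      by_contra hcon
      have h1 : inB φ t x y (q.1, q.2 - 1) = true := by
        unfold inB at hcon ⊢
        have e : ((q.2 - 1 : Fin 3) : ℕ) + 1 = (q.2 : ℕ) := by
          revert hq
          generalize q.2 = z
          revert z
          decide
        have e2 : t - (((q.2 - 1 : Fin 3) : ℕ) : ℤ) = t + 1 - ((q.2 : ℕ) : ℤ) := by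
          have : (((q.2 - 1 : Fin 3) : ℕ) : ℤ) + 1 = ((q.2 : ℕ) : ℤ) := by exact_mod_cast e
          omega
        simpa [e2] using hcon
      exact hp ⟨_, h1⟩
    · rw [if_neg hs] at hd
      subst hd
      change Psi φ (t + -1) (x + 0) (y + 0) = tp
      rw [add_zero, add_zero, ← sub_eq_add_neg]
      have hs' : s φ (t - 1) x y = true := by
        have := s_out hp'
        rw [Bool.not_eq_true] at hs
        rw [hs] at this
        revert this
        cases s φ (t - 1) x y <;> simp
      refine leave hG hs' (fun q hq => ?_) hV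
      by_contra hcon
      have h1 : inB φ t x y (q.1, q.2 + 1) = true := by
        unfold inB at hcon ⊢
        have e : ((q.2 + 1 : Fin 3) : ℕ) = (q.2 : ℕ) + 1 := by
          revert hq
          generalize q.2 = z
          revert z
          decide
        have e2 : t - (((q.2 + 1 : Fin 3) : ℕ) : ℤ) = t - 1 - ((q.2 : ℕ) : ℤ) := by
          have : (((q.2 + 1 : Fin 3) : ℕ) : ℤ) = ((q.2 : ℕ) : ℤ) + 1 := by exact_mod_cast e
          omega
        simpa [e2] using hcon
      exact hp ⟨_, h1⟩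

end Pool.Agent.Q115.DT
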