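import Pool.Agent.Q115.DT.Core

/-!
# Domino tilings of `ℤ³` from binary fields: the matching property
-/

set_option autoImplicit false

namespace Pool.Agent.Q115.DT

open Dir

/-- choice of a box -/
noncomputable def pick (b : Fin 4 × Fin 3 → Bool) : Option (Fin 4 × Fin 3) := by
  classical exact if h : ∃ p, b p = true then some h.choose else none

theorem pick_some (b : Fin 4 × Fin 3 → Bool) (p : Fin 4 × Fin 3) (hp : b p = true)
    (hu : ∀ q, b q = true → q = p) : pick b = some p := by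
  unfold pick
  have h : ∃ p, b p = true := ⟨p, hp⟩
  rw [dif_pos h]
  exact congrArg some (hu _ h.choose_spec)

theorem pick_none (b : Fin 4 × Fin 3 → Bool) (hu : ∀ q, b q = false) : pick b = none := by
  unfold pick
  rw [dif_neg]
  rintro ⟨p, hp⟩
  rw [hu p] at hp
  exact Bool.false_ne_true hp

/-- the cell `(t, x, y)` is the cell `p` of the box of a jump -/
def inB (φ : Field) (t x y : ℤ) (p : Fin 4 × Fin 3) : Bool :=
  J φ (t - (p.2 : ℕ)) (x - cx p.1) (y - cy p.1)

/-- bottom data of the box -/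
def av (φ : Field) (t x y : ℤ) : Fin 4 → Bool := fun i => s φ (t - 1) (x + cx i) (y + cy i)

/-- top data of the box -/
def cv (φ : Field) (t x y : ℤ) : Fin 4 → Bool := fun i => s φ (t + 2) (x + cx i) (y + cy i)

/-- the direction field of the tiling -/
noncomputable def Psi (φ : Field) (t x y : ℤ) : Dir :=
  match pick (inB φ t x y) with
  | some p => D (av φ (t - (p.2 : ℕ)) (x - cx p.1) (y - cy p.1))
      (cv φ (t - (p.2 : ℕ)) (x - cx p.1) (y - cy p.1)) p.1 p.2
  | none => if s φ t x y = true then tp else tm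

/-- the admissible fields: jumps at faces with a common vertex are at time distance at least `3`, jumps at the same
face at time distance at least `T` -/
structure Good (T : ℤ) (φ : Field) : Prop where
  near : ∀ t x y t' x' y', J φ t x y = true → J φ t' x' y' = true → |t' - t| ≤ 2 → |x' - x| ≤ 1 →
    |y' - y| ≤ 1 → t' = t ∧ x' = x ∧ y' = y
  far : ∀ t t' x y, J φ t x y = true → J φ t' x y = true → |t' - t| < T → t' = t

theorem cx_range (i : Fin 4) : 0 ≤ cx i ∧ cx i ≤ 1 := by
  fin_cases i <;> simp [cx]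

theorem cy_range (i : Fin 4) : 0 ≤ cy i ∧ cy i ≤ 1 := by
  fin_cases i <;> simp [cy]

theorem corner_inj (i i' : Fin 4) (h1 : cx i = cx i') (h2 : cy i = cy i') : i = i' := by
  revert i i'
  decide

theorem uniq {T : ℤ} {φ : Field} (hG : Good T φ) {t x y : ℤ} {p q : Fin 4 × Fin 3}
    (hp : inB φ t x y p = true) (hq : inB φ t x y q = true) : q = p := by
  unfold inB at hp hq
  have h1 := p.2.isLt
  have h2 := q.2.isLt
  have h3 := cx_range p.1
  have h4 := cx_range q.1
  have h5 := cy_range p.1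
  have h6 := cy_range q.1
  have h := hG.near _ _ _ _ _ _ hp hq (by rw [abs_le]; constructor <;> omega)
    (by rw [abs_le]; constructor <;> omega) (by rw [abs_le]; constructor <;> omega)
  have e1 : (q.2 : ℕ) = (p.2 : ℕ) := by omega
  have e2 : q.1 = p.1 := corner_inj _ _ (by omega) (by omega)
  exact Prod.ext e2 (Fin.ext e1)

/-- value of the direction field in a box -/
theorem Psi_box {T : ℤ} {φ : Field} (hG : Good T φ) {t x y : ℤ} (hJ : J φ t x y = true) (i : Fin 4)
    (j : Fin 3) (t' x' y' : ℤ) (ht : t' = t + (j : ℕ)) (hx : x' = x + cx i) (hy : y' = y + cy i) :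
    Psi φ t' x' y' = D (av φ t x y) (cv φ t x y) i j := by
  subst ht hx hy
  have h0 : inB φ (t + (j : ℕ)) (x + cx i) (y + cy i) (i, j) = true := by
    unfold inB
    simpa using hJ
  have h1 := pick_some _ (i, j) h0 (fun q hq => uniq hG h0 hq)
  unfold Psi
  rw [h1]
  simp

/-- value of the direction field outside the boxes -/
theorem Psi_out {φ : Field} {t x y : ℤ} (h : ∀ p, inB φ t x y p = false) :
    Psi φ t x y = if s φ t x y = true then tp else tm := by
  have h1 := pick_none _ h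
  unfold Psi
  rw [h1]

theorem bodd_sub_one (n : ℤ) : (n - 1).bodd = !n.bodd := by
  rw [sub_eq_add_neg, Int.bodd_add]
  cases n.bodd <;> rfl

theorem bodd_add_one (n : ℤ) : (n + 1).bodd = !n.bodd := by
  rw [Int.bodd_add]
  cases n.bodd <;> rfl

theorem bodd_add_two (n : ℤ) : (n + 2).bodd = n.bodd := by
  rw [Int.bodd_add]
  cases n.bodd <;> rfl

/-- the number `s` as a function of two parities and the values at the four faces at the vertex -/
def S (bx bt A B C E : Bool) : Bool :=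
  (!(bx ^^ (bt ^^ (A ^^ C))) && !(!bx ^^ (bt ^^ (B ^^ E)))) || ((bt ^^ (A ^^ B)) && (bt ^^ (C ^^ E)))

theorem s_eq (φ : Field) (t x y : ℤ) :
    s φ t x y = S x.bodd t.bodd (φ t x y) (φ t (x - 1) y) (φ t x (y - 1)) (φ t (x - 1) (y - 1)) := by
  unfold s gh gu S
  rw [bodd_sub_one x]

theorem S_not (bx bt A B C E : Bool) : S bx (!bt) A B C E = !S bx bt A B C E := by
  revert bx bt A B C E
  decide

theorem J_false {φ : Field} {t x y : ℤ} (h : J φ t x y = false) : φ t x y = φ (t - 1) x y := by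
  unfold J at h
  revert h
  cases φ t x y <;> cases φ (t - 1) x y <;> simp

/-- outside the boxes the time edges alternate -/
theorem s_out {φ : Field} {t x y : ℤ} (h : ∀ p, inB φ t x y p = false) :
    s φ t x y = !s φ (t - 1) x y := by
  have h0 := J_false (by simpa [inB, cx, cy] using h (0, 0))
  have h1 := J_false (by simpa [inB, cx, cy] using h (1, 0))
  have h2 := J_false (by simpa [inB, cx, cy] using h (2, 0))
  have h3 := J_false (by simpa [inB, cx, cy] using h (3, 0))
  rw [s_eq, s_eq, bodd_sub_one t, S_not, Bool.not_not, h0, h1, h2, h3]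

theorem enter {T : ℤ} {φ : Field} (hG : Good T φ) {t x y : ℤ} (h : s φ t x y = true)
    (hb : ∀ p : Fin 4 × Fin 3, p.2 ≠ 0 → inB φ (t + 1) x y p = false) (hV : ∀ t x y, J φ t x y = true →
      ∀ i j, Ok1 (av φ t x y) (cv φ t x y) i j ∧ Ok2 (av φ t x y) (cv φ t x y) i j) :
    Psi φ (t + 1) x y = tm := by
  by_cases hp : ∃ p, inB φ (t + 1) x y p = true
  · obtain ⟨p, hp⟩ := hp
    have h2 : p.2 = 0 := by
      by_contra h2
      rw [hb p h2] at hp
      exact Bool.false_ne_true hp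
    have hJ : J φ (t + 1) (x - cx p.1) (y - cy p.1) = true := by
      unfold inB at hp
      rw [h2] at hp
      simpa using hp
    rw [Psi_box hG hJ p.1 0 (t + 1) x y (by simp) (by ring) (by ring)]
    refine (hV _ _ _ hJ p.1 0).1.1 ⟨rfl, ?_⟩
    unfold av
    simpa using h
  · have hp' : ∀ p, inB φ (t + 1) x y p = false := fun p => by
      by_contra hc
      exact hp ⟨p, by simpa using hc⟩
    rw [Psi_out hp', s_out hp', add_sub_cancel_right, h]
    rfl

theorem leave {T : ℤ} {φ : Field} (hG : Good T φ) {t x y : ℤ} (h : s φ t x y = true)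
    (hb : ∀ p : Fin 4 × Fin 3, p.2 ≠ 2 → inB φ t x y p = false) (hV : ∀ t x y, J φ t x y = true →
      ∀ i j, Ok1 (av φ t x y) (cv φ t x y) i j ∧ Ok2 (av φ t x y) (cv φ t x y) i j) :
    Psi φ t x y = tp := by
  by_cases hp : ∃ p, inB φ t x y p = true
  · obtain ⟨p, hp⟩ := hp
    have h2 : p.2 = 2 := by
      by_contra h2
      rw [hb p h2] at hp
      exact Bool.false_ne_true hp
    have hJ : J φ (t - 2) (x - cx p.1) (y - cy p.1) = true := by
      unfold inB at hp
      rw [h2] at hp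
      simpa using hp
    rw [Psi_box hG hJ p.1 2 t x y (by simp) (by ring) (by ring)]
    refine (hV _ _ _ hJ p.1 2).1.2.1 ⟨rfl, ?_⟩
    unfold cv
    simpa using h
  · have hp' : ∀ p, inB φ t x y p = false := fun p => by
      by_contra hc
      exact hp ⟨p, by simpa using hc⟩
    rw [Psi_out hp', if_pos h]

theorem abs_small {n : ℤ} (h1 : -1 ≤ n) (h2 : n ≤ 1) : |n| ≤ 1 := abs_le.2 ⟨h1, h2⟩

/-- evolution of the neighbouring faces of a jump -/
theorem stay {T : ℤ} {φ : Field} (hG : Good T φ) {t x y : ℤ} (hJ : J φ t x y = true) {x' y' : ℤ}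
    (hx : |x' - x| ≤ 1) (hy : |y' - y| ≤ 1) (hne : ¬ (x' = x ∧ y' = y)) :
    φ (t + 2) x' y' = φ (t - 1) x' y' := by
  have key : ∀ t' : ℤ, |t' - t| ≤ 2 → J φ t' x' y' = false := fun t' ht' => by
    by_contra hc
    have h := hG.near _ _ _ _ _ _ hJ (by simpa using hc) ht' hx hy
    exact hne ⟨h.2.1, h.2.2⟩
  have h0 := J_false (key t (by simp))
  have h1 := J_false (key (t + 1) (by simp))
  have h2 := J_false (key (t + 2) (by simp))
  rw [show t + 1 - 1 = t by ring] at h1
  rw [show t + 2 - 1 = t + 1 by ring] at h2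
  rw [h2, h1, h0]

theorem flip {T : ℤ} {φ : Field} (hG : Good T φ) {t x y : ℤ} (hJ : J φ t x y = true) :
    φ (t + 2) x y = !φ (t - 1) x y := by
  have key : ∀ t' : ℤ, t' ≠ t → |t' - t| ≤ 2 → J φ t' x y = false := fun t' hne ht' => by
    by_contra hc
    have h := hG.near _ _ _ _ _ _ hJ (by simpa using hc) ht' (by simp) (by simp)
    exact hne h.1
  have h1 := J_false (key (t + 1) (by omega) (by simp))
  have h2 := J_false (key (t + 2) (by omega) (by simp))
  rw [show t + 1 - 1 = t by ring] at h1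
  rw [show t + 2 - 1 = t + 1 by ring] at h2
  rw [h2, h1]
  unfold J at hJ
  revert hJ
  cases φ t x y <;> cases φ (t - 1) x y <;> simp

theorem case0 : ∀ bx bt A B C E : Bool,
    ((bt ^^ (A ^^ B)) = !(bx ^^ (bt ^^ (A ^^ C))) →
      S bx bt A B C E = !(bx ^^ (bt ^^ (A ^^ C))) ∧ S bx (!bt) (!A) B C E = !(bx ^^ (bt ^^ (A ^^ C)))) ∧
    ((bt ^^ (A ^^ B)) ≠ !(bx ^^ (bt ^^ (A ^^ C))) → S bx (!bt) (!A) B C E = !S bx bt A B C E) := by
  decide

theorem case1 : ∀ bx bt A B C E : Bool,
    ((!(!bx ^^ (bt ^^ (B ^^ E)))) = (bt ^^ (A ^^ B)) →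
      S bx bt A B C E = (bt ^^ (A ^^ B)) ∧ S bx (!bt) A (!B) C E = (bt ^^ (A ^^ B))) ∧
    ((!(!bx ^^ (bt ^^ (B ^^ E)))) ≠ (bt ^^ (A ^^ B)) → S bx (!bt) A (!B) C E = !S bx bt A B C E) := by
  decide

theorem case2 : ∀ bx bt A B C E : Bool,
    ((bt ^^ (C ^^ E)) = (!(!bx ^^ (bt ^^ (B ^^ E)))) →
      S bx bt A B C E = (!(!bx ^^ (bt ^^ (B ^^ E)))) ∧ S bx (!bt) A B C (!E) = (!(!bx ^^ (bt ^^ (B ^^ E))))) ∧
    ((bt ^^ (C ^^ E)) ≠ (!(!bx ^^ (bt ^^ (B ^^ E)))) → S bx (!bt) A B C (!E) = !S bx bt A B C E) := by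
  decide

theorem case3 : ∀ bx bt A B C E : Bool,
    ((!(bx ^^ (bt ^^ (A ^^ C)))) = (bt ^^ (C ^^ E)) →
      S bx bt A B C E = (bt ^^ (C ^^ E)) ∧ S bx (!bt) A B (!C) E = (bt ^^ (C ^^ E))) ∧
    ((!(bx ^^ (bt ^^ (A ^^ C)))) ≠ (bt ^^ (C ^^ E)) → S bx (!bt) A B (!C) E = !S bx bt A B C E) := by
  decide

end Pool.Agent.Q115.DT
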