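import Pool.Agent.Q115.DT.Main3

/-!
# Domino tilings of `ℤ³` from binary fields: shifts and locality
-/

set_option autoImplicit false

namespace Pool.Agent.Q115.DT

open Dir

/-- the field of the shifted tiling -/
def shf (a b c : ℤ) (φ : Field) : Field := fun t x y =>
  φ (t + a) (x + b) (y + c) ^^ ((y.bodd && (a.bodd ^^ b.bodd)) ^^ (x.bodd && a.bodd))

theorem shf_J (a b c : ℤ) (φ : Field) (t x y : ℤ) : J (shf a b c φ) t x y = J φ (t + a) (x + b) (y + c) := by
  unfold J shf
  rw [show t - 1 + a = t + a - 1 by ring]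
  generalize φ (t + a) (x + b) (y + c) = A
  generalize φ (t + a - 1) (x + b) (y + c) = B
  generalize ((y.bodd && (a.bodd ^^ b.bodd)) ^^ (x.bodd && a.bodd)) = C
  revert A B C
  decide

theorem shf_gh (a b c : ℤ) (φ : Field) (t x y : ℤ) :
    gh (shf a b c φ) t x y = gh φ (t + a) (x + b) (y + c) := by
  unfold gh shf
  rw [show y - 1 + c = y + c - 1 by ring, bodd_sub_one y, Int.bodd_add x b, Int.bodd_add t a]
  generalize φ (t + a) (x + b) (y + c) = A
  generalize φ (t + a) (x + b) (y + c - 1) = B
  generalize x.bodd = X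
  generalize y.bodd = Y
  generalize t.bodd = T
  generalize a.bodd = a'
  generalize b.bodd = b'
  revert A B X Y T a' b'
  decide

theorem shf_gu (a b c : ℤ) (φ : Field) (t x y : ℤ) :
    gu (shf a b c φ) t x y = gu φ (t + a) (x + b) (y + c) := by
  unfold gu shf
  rw [show x - 1 + b = x + b - 1 by ring, bodd_sub_one x, Int.bodd_add t a]
  generalize φ (t + a) (x + b) (y + c) = A
  generalize φ (t + a) (x + b - 1) (y + c) = B
  generalize x.bodd = X
  generalize y.bodd = Y
  generalize t.bodd = T
  generalize a.bodd = a'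
  generalize b.bodd = b'
  revert A B X Y T a' b'
  decide

theorem shf_s (a b c : ℤ) (φ : Field) (t x y : ℤ) :
    s (shf a b c φ) t x y = s φ (t + a) (x + b) (y + c) := by
  unfold s
  rw [shf_gh, shf_gh, shf_gu, shf_gu, show x - 1 + b = x + b - 1 by ring, show y - 1 + c = y + c - 1 by ring]

theorem shf_Psi (a b c : ℤ) (φ : Field) (t x y : ℤ) :
    Psi (shf a b c φ) t x y = Psi φ (t + a) (x + b) (y + c) := by
  have h1 : inB (shf a b c φ) t x y = inB φ (t + a) (x + b) (y + c) := by
    funext p
    unfold inB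
    rw [shf_J]
    congr 1 <;> ring
  have h2 : ∀ t x y, av (shf a b c φ) t x y = av φ (t + a) (x + b) (y + c) := fun t x y => by
    funext i
    unfold av
    rw [shf_s]
    congr 1 <;> ring
  have h3 : ∀ t x y, cv (shf a b c φ) t x y = cv φ (t + a) (x + b) (y + c) := fun t x y => by
    funext i
    unfold cv
    rw [shf_s]
    congr 1 <;> ring
  unfold Psi
  rw [h1]
  cases h : pick (inB φ (t + a) (x + b) (y + c)) with
  | none =>
    simp only
    rw [shf_s]
  | some p =>
    simp only
    rw [h2, h3]
    congr 2 <;> ring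

theorem shf_Good {T : ℤ} (a b c : ℤ) {φ : Field} (hG : Good T φ) : Good T (shf a b c φ) := by
  constructor
  · intro t x y t' x' y' h1 h2 h3 h4 h5
    rw [shf_J] at h1 h2
    have h := hG.near _ _ _ _ _ _ h1 h2 (by rw [show t' + a - (t + a) = t' - t by ring]; exact h3)
      (by rw [show x' + b - (x + b) = x' - x by ring]; exact h4)
      (by rw [show y' + c - (y + c) = y' - y by ring]; exact h5)
    exact ⟨by omega, by omega, by omega⟩
  · intro t t' x y h1 h2 h3
    rw [shf_J] at h1 h2
    have h := hG.far _ _ _ _ h1 h2 (by rw [show t' + a - (t + a) = t' - t by ring]; exact h3)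
    omega

/-- the value of `Psi` depends on the values of `φ` at distance at most `4` -/
theorem local_Psi {φ ψ : Field} {t x y : ℤ}
    (h : ∀ t' x' y', |t' - t| ≤ 4 → |x' - x| ≤ 4 → |y' - y| ≤ 4 → φ t' x' y' = ψ t' x' y') :
    Psi φ t x y = Psi ψ t x y := by
  have hh : ∀ a b c : ℤ, -4 ≤ a → a ≤ 4 → -4 ≤ b → b ≤ 4 → -4 ≤ c → c ≤ 4 →
      ∀ t' x' y', t' = t + a → x' = x + b → y' = y + c → φ t' x' y' = ψ t' x' y' := by
    intro a b c h1 h2 h3 h4 h5 h6 t' x' y' e1 e2 e3
    refine h _ _ _ ?_ ?_ ?_ <;> rw [abs_le] <;> constructor <;> omega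
  have hs : ∀ t' x' y' : ℤ, -3 ≤ t' - t → t' - t ≤ 3 → -2 ≤ x' - x → x' - x ≤ 2 → -2 ≤ y' - y → y' - y ≤ 2 →
      s φ t' x' y' = s ψ t' x' y' := by
    intro t' x' y' h1 h2 h3 h4 h5 h6
    rw [s_eq, s_eq]
    rw [hh (t' - t) (x' - x) (y' - y) (by omega) (by omega) (by omega) (by omega) (by omega) (by omega)
        t' x' y' (by ring) (by ring) (by ring),
      hh (t' - t) (x' - 1 - x) (y' - y) (by omega) (by omega) (by omega) (by omega) (by omega) (by omega)
        t' (x' - 1) y' (by ring) (by ring) (by ring),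
      hh (t' - t) (x' - x) (y' - 1 - y) (by omega) (by omega) (by omega) (by omega) (by omega) (by omega)
        t' x' (y' - 1) (by ring) (by ring) (by ring),
      hh (t' - t) (x' - 1 - x) (y' - 1 - y) (by omega) (by omega) (by omega) (by omega) (by omega) (by omega)
        t' (x' - 1) (y' - 1) (by ring) (by ring) (by ring)]
  have hB : inB φ t x y = inB ψ t x y := by
    funext p
    unfold inB J
    have h1 := p.2.isLt
    have h2 := cx_range p.1
    have h3 := cy_range p.1
    rw [hh (-(p.2 : ℕ)) (-cx p.1) (-cy p.1) (by omega) (by omega) (by omega) (by omega) (by omega) (by omega)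
        _ _ _ (by ring) (by ring) (by ring),
      hh (-(p.2 : ℕ) - 1) (-cx p.1) (-cy p.1) (by omega) (by omega) (by omega) (by omega) (by omega) (by omega)
        _ _ _ (by ring) (by ring) (by ring)]
  unfold Psi
  rw [hB]
  cases hp : pick (inB ψ t x y) with
  | none =>
    simp only
    rw [hs t x y (by omega) (by omega) (by omega) (by omega) (by omega) (by omega)]
  | some p =>
    simp only
    have h1 := p.2.isLt
    have h2 := cx_range p.1
    have h3 := cy_range p.1
    have ea : av φ (t - (p.2 : ℕ)) (x - cx p.1) (y - cy p.1) =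
        av ψ (t - (p.2 : ℕ)) (x - cx p.1) (y - cy p.1) := by
      funext i
      unfold av
      have h4 := cx_range i
      have h5 := cy_range i
      exact hs _ _ _ (by omega) (by omega) (by omega) (by omega) (by omega) (by omega)
    have ec : cv φ (t - (p.2 : ℕ)) (x - cx p.1) (y - cy p.1) =
        cv ψ (t - (p.2 : ℕ)) (x - cx p.1) (y - cy p.1) := by
      funext i
      unfold cv
      have h4 := cx_range i
      have h5 := cy_range i
      exact hs _ _ _ (by omega) (by omega) (by omega) (by omega) (by omega) (by omega)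
    rw [ea, ec]

end Pool.Agent.Q115.DT
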